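import Pool.Agent.helper1.CD.Spec

/-!
# MP_2e0e07, project CD: row PRS (grouping by the norm)
-/

set_option autoImplicit false

open NumberField IsDedekindDomain Complex Pool.Agent.CH Pool.Agent.GK

namespace Pool.Agent.CD

theorem PRS (hSMB : SMB_stmt) : PRS_stmt := by
  intro K _ _
  constructor
  · intro p hp
    have hb : Function.Bijective (fun v : {v : Pl K // nv K v = p} => (⟨v.1.asIdeal, v.2⟩ : {I : Ideal (𝓞 K) // Ideal.absNorm I = p})) := by
      constructor
      · rintro ⟨v, hv⟩ ⟨w, hw⟩ h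
        have h1 : v.asIdeal = w.asIdeal := congrArg Subtype.val h
        exact Subtype.ext (HeightOneSpectrum.ext h1)
      · rintro ⟨I, hI⟩
        have h1 : I.IsPrime := Ideal.isPrime_of_irreducible_absNorm (by rw [hI]; exact hp)
        have h2 : I ≠ ⊥ := by
          intro h0
          rw [h0, Ideal.absNorm_bot] at hI
          exact hp.ne_zero hI.symm
        exact ⟨⟨⟨I, h1, h2⟩, hI⟩, rfl⟩
    exact (Nat.card_eq_of_bijective _ hb).symm
  · intro S s hs hS
    obtain ⟨f, hf⟩ : ∃ f : S → Nat.Primes, ∀ v : S, ((f v : Nat.Primes) : ℕ) = nv K v := ⟨fun v => ⟨nv K v, hS v v.2⟩, fun v => rfl⟩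
    have hsum : Summable (fun v : S => (nv K v : ℝ) ^ (-s)) := ((hSMB K).1 s hs).subtype S
    have hsig : Summable (fun c : (Σ p : Nat.Primes, {x : S // f x = p}) => (nv K (c.2.1 : Pl K) : ℝ) ^ (-s)) :=
      (Equiv.sigmaFiberEquiv f).summable_iff.2 hsum
    have hcard : ∀ p : Nat.Primes, Nat.card {x : S // f x = p} = Nat.card {v : Pl K // v ∈ S ∧ nv K v = p} := by
      intro p
      have hb : Function.Bijective (fun x : {x : S // f x = p} => (⟨x.1.1, x.1.2, by rw [← hf, x.2]⟩ : {v : Pl K // v ∈ S ∧ nv K v = p})) := by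
        constructor
        · rintro ⟨⟨v, hv⟩, hv2⟩ ⟨⟨w, hw⟩, hw2⟩ h
          have h1 : v = w := congrArg Subtype.val h
          subst h1
          rfl
        · rintro ⟨v, hv, hv2⟩
          exact ⟨⟨⟨v, hv⟩, Subtype.ext ((hf ⟨v, hv⟩).trans hv2)⟩, rfl⟩
      exact Nat.card_eq_of_bijective _ hb
    have hfib : ∀ p : Nat.Primes, ∑' c : {x : S // f x = p}, (nv K (c.1 : Pl K) : ℝ) ^ (-s) = (Nat.card {v : Pl K // v ∈ S ∧ nv K v = p} : ℝ) * ((p : ℕ) : ℝ) ^ (-s) := by
      intro p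
      have h1 : ∀ c : {x : S // f x = p}, (nv K (c.1 : Pl K) : ℝ) ^ (-s) = ((p : ℕ) : ℝ) ^ (-s) := by
        intro c
        rw [← hf, c.2]
      simp_rw [h1]
      rw [tsum_const, hcard, nsmul_eq_mul]
    have h1 := hsig.sigma
    have h2 := hsig.tsum_sigma
    simp_rw [hfib] at h1 h2
    refine ⟨h1, ?_⟩
    rw [← h2]
    exact ((Equiv.sigmaFiberEquiv f).tsum_eq (fun v : S => (nv K v : ℝ) ^ (-s))).symm

end Pool.Agent.CD
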